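import Mathlib

set_option autoImplicit false

/-!
# MP_54f706_an, Q1: the unit circle meets the product of two middle-third Cantor sets in
infinitely many points

Let `g` be a function on an interval of length `s` with all slopes in `[1 / 3, 1]`, whose graph
meets the square `[a, a + s] × [b, b + s]`. Then the graph meets one of the four corner squares of
side `s / 3`, hence, by compactness, the copy of `C × C` in the square.

Near `(0, 1)` put `x = u / 3 ^ n`, `1 - y = w / 9 ^ n`. The circle becomes `u ^ 2 = 2 w - w ^ 2 / 9 ^ n`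
and its arc over `[2 / 3, 7 / 9]` has slopes in `[2 / 3, 14 / 17]` and meets the square
`[2 / 3, 7 / 9] × [2 / 9, 1 / 3]`. This gives one point for each `n ≥ 1`.
-/

open Set

namespace Pool.Agent.Results.MP_54f706_an.InfinitelyMany

/-- all slopes of `g` on `[a, b]` are in `[1 / 3, 1]` -/
def Slopes (g : ℝ → ℝ) (a b : ℝ) : Prop :=
  ∀ u v, a ≤ u → u ≤ v → v ≤ b → (v - u) / 3 ≤ g v - g u ∧ g v - g u ≤ v - u

lemma Slopes.mono {g : ℝ → ℝ} {a b a' b' : ℝ} (h : Slopes g a b) (h1 : a ≤ a') (h2 : b' ≤ b) :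
    Slopes g a' b' := fun u v hu huv hv => h u v (h1.trans hu) huv (hv.trans h2)

/-- an interval which avoids the two outer thirds of `[b, b + s]` -/
lemma image_cases {g : ℝ → ℝ} {a c b s : ℝ} (hac : a ≤ c) (hs : 0 < s) (hg : Continuous g)
    (h0 : ∀ u ∈ Icc a c, ¬ (g u ∈ Icc b (b + s / 3)))
    (h1 : ∀ u ∈ Icc a c, ¬ (g u ∈ Icc (b + 2 * s / 3) (b + s))) :
    (∀ u ∈ Icc a c, g u < b) ∨ (∀ u ∈ Icc a c, b + s / 3 < g u ∧ g u < b + 2 * s / 3) ∨
      (∀ u ∈ Icc a c, b + s < g u) := by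
  have hconn : ∀ u ∈ Icc a c, ∀ v ∈ Icc a c, ∀ t, g u ≤ t → t ≤ g v → ∃ w ∈ Icc a c, g w = t := by
    intro u hu v hv t h2 h3
    have hpre : IsPreconnected (g '' Icc a c) := isPreconnected_Icc.image g hg.continuousOn
    have := hpre.Icc_subset (mem_image_of_mem g hu) (mem_image_of_mem g hv) ⟨h2, h3⟩
    obtain ⟨w, hw, hwt⟩ := this
    exact ⟨w, hw, hwt⟩
  have ha : a ∈ Icc a c := ⟨le_refl _, hac⟩
  have hb0 : ∀ u ∈ Icc a c, g u ≠ b := fun u hu h => h0 u hu ⟨h.ge, by linarith⟩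
  have hb1 : ∀ u ∈ Icc a c, g u ≠ b + s / 3 := fun u hu h => h0 u hu ⟨by linarith, h.le⟩
  have hb2 : ∀ u ∈ Icc a c, g u ≠ b + 2 * s / 3 := fun u hu h => h1 u hu ⟨h.ge, by linarith⟩
  have hb3 : ∀ u ∈ Icc a c, g u ≠ b + s := fun u hu h => h1 u hu ⟨by linarith, h.le⟩
  have key : ∀ t, (∀ u ∈ Icc a c, g u ≠ t) → (g a < t → ∀ u ∈ Icc a c, g u < t) ∧
      (t < g a → ∀ u ∈ Icc a c, t < g u) := by
    intro t ht
    constructor
    · intro h u hu
      by_contra hcon
      rw [not_lt] at hcon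
      obtain ⟨w, hw, hwt⟩ := hconn a ha u hu t h.le hcon
      exact ht w hw hwt
    · intro h u hu
      by_contra hcon
      rw [not_lt] at hcon
      obtain ⟨w, hw, hwt⟩ := hconn u hu a ha t hcon h.le
      exact ht w hw hwt
  rcases lt_or_gt_of_ne (hb0 a ha) with h2 | h2
  · exact Or.inl ((key b hb0).1 h2)
  · have h3 : b + s / 3 < g a := by
      by_contra hcon
      rw [not_lt] at hcon
      exact h0 a ha ⟨h2.le, hcon⟩
    rcases lt_or_gt_of_ne (hb2 a ha) with h4 | h4
    · exact Or.inr (Or.inl fun u hu => ⟨(key _ hb1).2 h3 u hu, (key _ hb2).1 h4 u hu⟩)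
    · have h5 : b + s < g a := by
        by_contra hcon
        rw [not_lt] at hcon
        exact h1 a ha ⟨h4.le, hcon⟩
      exact Or.inr (Or.inr fun u hu => (key _ hb3).2 h5 u hu)

/-- the graph meets a corner square -/
lemma corner {g : ℝ → ℝ} {a b s : ℝ} (hs : 0 < s) (hg : Continuous g) (hsl : Slopes g a (a + s))
    (hmeet : ∃ u ∈ Icc a (a + s), g u ∈ Icc b (b + s)) :
    ∃ a' b' : ℝ, (a' = a ∨ a' = a + 2 * s / 3) ∧ (b' = b ∨ b' = b + 2 * s / 3) ∧
      ∃ u ∈ Icc a' (a' + s / 3), g u ∈ Icc b' (b' + s / 3) := by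
  by_contra hcon
  push Not at hcon
  have e1 : b + 2 * s / 3 + s / 3 = b + s := by ring
  have e2 : a + 2 * s / 3 + s / 3 = a + s := by ring
  have hA := image_cases (g := g) (a := a) (c := a + s / 3) (b := b) (s := s) (by linarith) hs hg
    (fun u hu => hcon a b (Or.inl rfl) (Or.inl rfl) u hu)
    (fun u hu h => hcon a (b + 2 * s / 3) (Or.inl rfl) (Or.inr rfl) u hu (by rwa [e1]))
  have hB := image_cases (g := g) (a := a + 2 * s / 3) (c := a + s) (b := b) (s := s)
    (by linarith) hs hg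
    (fun u hu => hcon (a + 2 * s / 3) b (Or.inr rfl) (Or.inl rfl) u (by rwa [e2]))
    (fun u hu h => hcon (a + 2 * s / 3) (b + 2 * s / 3) (Or.inr rfl) (Or.inr rfl) u
      (by rwa [e2]) (by rwa [e1]))
  obtain ⟨u0, hu0, hgu0⟩ := hmeet
  have m0 : a ∈ Icc a (a + s / 3) := ⟨le_refl _, by linarith⟩
  have m1 : a + s / 3 ∈ Icc a (a + s / 3) := ⟨by linarith, le_refl _⟩
  have m2 : a + 2 * s / 3 ∈ Icc (a + 2 * s / 3) (a + s) := ⟨le_refl _, by linarith⟩
  have m3 : a + s ∈ Icc (a + 2 * s / 3) (a + s) := ⟨by linarith, le_refl _⟩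
  have s1 := hsl a (a + s) le_rfl (by linarith) le_rfl
  have s2 := hsl (a + s / 3) (a + 2 * s / 3) (by linarith) (by linarith) (by linarith)
  have s3 := hsl a u0 le_rfl hu0.1 hu0.2
  have s4 := hsl u0 (a + s) hu0.1 hu0.2 le_rfl
  rcases hA with hA | hA | hA
  · have h1 := hA _ m1
    rcases hB with hB | hB | hB
    · have := hB _ m3
      have h5 := hgu0.1
      linarith [s4.1, hu0.2]
    · have := (hB _ m2).1
      linarith [s2.2]
    · have := hB _ m2
      linarith [s2.2]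
  · have h0 := (hA _ m0).1
    have h1 := (hA _ m1).2
    rcases hB with hB | hB | hB
    · have := hB _ m3
      linarith [s1.1]
    · have := (hB _ m3).2
      linarith [s1.1]
    · have := hB _ m2
      linarith [s2.2]
  · have h0 := hA _ m0
    have h5 := hgu0.2
    linarith [s3.1, hu0.1]

lemma exists_pre {g : ℝ → ℝ} (hg : Continuous g) (n : ℕ) : ∀ a b s : ℝ, 0 < s →
    Slopes g a (a + s) → (∃ u ∈ Icc a (a + s), g u ∈ Icc b (b + s)) →
    ∃ c d : ℝ, c ∈ preCantorSet n ∧ d ∈ preCantorSet n ∧ g (a + s * c) = b + s * d := by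
  induction n with
  | zero =>
    rintro a b s hs - ⟨u, hu, hgu⟩
    refine ⟨(u - a) / s, (g u - b) / s, ?_, ?_, ?_⟩
    · rw [preCantorSet_zero]
      exact ⟨div_nonneg (by linarith [hu.1]) hs.le, (div_le_one hs).2 (by linarith [hu.2])⟩
    · rw [preCantorSet_zero]
      exact ⟨div_nonneg (by linarith [hgu.1]) hs.le, (div_le_one hs).2 (by linarith [hgu.2])⟩
    · have h1 : a + s * ((u - a) / s) = u := by field_simp; ring
      have h2 : b + s * ((g u - b) / s) = g u := by field_simp; ring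
      rw [h1, h2]
  | succ n ih =>
    intro a b s hs hsl hmeet
    obtain ⟨a', b', ha', hb', hm⟩ := corner hs hg hsl hmeet
    have hsl' : Slopes g a' (a' + s / 3) := by
      refine hsl.mono ?_ ?_
      · rcases ha' with rfl | rfl <;> linarith
      · rcases ha' with rfl | rfl <;> linarith
    obtain ⟨c, d, hc, hd, hcd⟩ := ih a' b' (s / 3) (by linarith) hsl' hm
    have hx : ∃ c' ∈ preCantorSet (n + 1), a + s * c' = a' + s / 3 * c := by
      rcases ha' with rfl | rfl
      · exact ⟨c / 3, Or.inl ⟨c, hc, rfl⟩, by ring⟩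
      · exact ⟨(2 + c) / 3, Or.inr ⟨c, hc, rfl⟩, by ring⟩
    have hy : ∃ d' ∈ preCantorSet (n + 1), b + s * d' = b' + s / 3 * d := by
      rcases hb' with rfl | rfl
      · exact ⟨d / 3, Or.inl ⟨d, hd, rfl⟩, by ring⟩
      · exact ⟨(2 + d) / 3, Or.inr ⟨d, hd, rfl⟩, by ring⟩
    obtain ⟨c', hc', hc''⟩ := hx
    obtain ⟨d', hd', hd''⟩ := hy
    exact ⟨c', d', hc', hd', by rw [hc'', hd'', hcd]⟩

/-- the graph meets the copy of `C × C` in the square -/
lemma exists_cantor {g : ℝ → ℝ} (hg : Continuous g) {a b s : ℝ} (hs : 0 < s)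
    (hsl : Slopes g a (a + s)) (hmeet : ∃ u ∈ Icc a (a + s), g u ∈ Icc b (b + s)) :
    ∃ c d : ℝ, c ∈ cantorSet ∧ d ∈ cantorSet ∧ g (a + s * c) = b + s * d := by
  let F : ℕ → Set ℝ := fun n =>
    {c | c ∈ preCantorSet n ∧ (g (a + s * c) - b) / s ∈ preCantorSet n}
  have hcont : Continuous fun c : ℝ => (g (a + s * c) - b) / s := by fun_prop
  have hclosed : ∀ n, IsClosed (F n) := fun n =>
    (isClosed_preCantorSet n).inter ((isClosed_preCantorSet n).preimage hcont)
  have hne : ∀ n, (F n).Nonempty := by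
    intro n
    obtain ⟨c, d, hc, hd, hcd⟩ := exists_pre hg n a b s hs hsl hmeet
    refine ⟨c, hc, ?_⟩
    have : (g (a + s * c) - b) / s = d := by rw [hcd]; field_simp; ring
    rwa [this]
  have hcomp : IsCompact (F 0) := by
    refine IsCompact.of_isClosed_subset (isCompact_Icc (a := (0 : ℝ)) (b := 1)) (hclosed 0)
      (fun c hc => ?_)
    have h0 := hc.1
    rwa [preCantorSet_zero] at h0
  have hanti : ∀ n, F (n + 1) ⊆ F n := fun n c hc =>
    ⟨preCantorSet_antitone (Nat.le_succ n) hc.1, preCantorSet_antitone (Nat.le_succ n) hc.2⟩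
  obtain ⟨c, hc⟩ := IsCompact.nonempty_iInter_of_sequence_nonempty_isCompact_isClosed F hanti hne
    hcomp hclosed
  rw [mem_iInter] at hc
  refine ⟨c, (g (a + s * c) - b) / s, mem_iInter.2 fun n => (hc n).1,
    mem_iInter.2 fun n => (hc n).2, ?_⟩
  field_simp
  ring

lemma third_mem {c : ℝ} (hc : c ∈ cantorSet) : c / 3 ∈ cantorSet := by
  rw [cantorSet_eq_union_halves]
  exact Or.inl ⟨c, hc, rfl⟩

lemma two_third_mem {c : ℝ} (hc : c ∈ cantorSet) : (2 + c) / 3 ∈ cantorSet := by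
  rw [cantorSet_eq_union_halves]
  exact Or.inr ⟨c, hc, rfl⟩

lemma div_pow_mem {c : ℝ} (hc : c ∈ cantorSet) (n : ℕ) : c / 3 ^ n ∈ cantorSet := by
  induction n with
  | zero => simpa using hc
  | succ n ih =>
    have := third_mem ih
    rwa [div_div, ← pow_succ] at this

lemma one_sub_pre (n : ℕ) : ∀ c ∈ preCantorSet n, 1 - c ∈ preCantorSet n := by
  induction n with
  | zero =>
    intro c hc
    rw [preCantorSet_zero] at *
    exact ⟨by linarith [hc.2], by linarith [hc.1]⟩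
  | succ n ih =>
    rintro _ (⟨c, hc, rfl⟩ | ⟨c, hc, rfl⟩)
    · exact Or.inr ⟨1 - c, ih c hc, by ring⟩
    · exact Or.inl ⟨1 - c, ih c hc, by ring⟩

lemma one_sub_mem {c : ℝ} (hc : c ∈ cantorSet) : 1 - c ∈ cantorSet :=
  mem_iInter.2 fun n => one_sub_pre n c (mem_iInter.1 hc n)

/-- one point of the circle for each `n ≥ 1` -/
lemma exists_point (n : ℕ) (hn : 1 ≤ n) : ∃ x y : ℝ, x ^ 2 + y ^ 2 = 1 ∧ x ∈ cantorSet ∧
    y ∈ cantorSet ∧ 2 / 3 / 3 ^ n ≤ x ∧ x ≤ 7 / 9 / 3 ^ n := by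
  set N : ℝ := 9 ^ n with hN
  have hN9 : (9 : ℝ) ≤ N := by
    calc (9 : ℝ) = 9 ^ 1 := by norm_num
      _ ≤ 9 ^ n := pow_le_pow_right₀ (by norm_num) hn
  have hN0 : 0 < N := by linarith
  let g : ℝ → ℝ := fun u => N * (1 - Real.sqrt (1 - u ^ 2 / N))
  have hgc : Continuous g := by
    show Continuous fun u : ℝ => N * (1 - Real.sqrt (1 - u ^ 2 / N))
    fun_prop
  -- the equation
  have heq : ∀ u : ℝ, 0 ≤ u → u ≤ 1 → u ^ 2 = 2 * g u - (g u) ^ 2 / N := by
    intro u h0 h1
    have h2 : 0 ≤ 1 - u ^ 2 / N := by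
      rw [sub_nonneg, div_le_one hN0]
      nlinarith
    have h3 := Real.sq_sqrt h2
    show u ^ 2 = 2 * (N * (1 - Real.sqrt (1 - u ^ 2 / N)))
      - (N * (1 - Real.sqrt (1 - u ^ 2 / N))) ^ 2 / N
    have h4 : (N * (1 - Real.sqrt (1 - u ^ 2 / N))) ^ 2 / N
        = N * (1 - 2 * Real.sqrt (1 - u ^ 2 / N) + Real.sqrt (1 - u ^ 2 / N) ^ 2) := by
      field_simp
      ring
    rw [h4, h3]
    field_simp
    ring
  have hg0 : ∀ u : ℝ, 0 ≤ u → u ≤ 1 → 0 ≤ g u := by
    intro u h0 h1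
    have : Real.sqrt (1 - u ^ 2 / N) ≤ 1 := by
      rw [Real.sqrt_le_iff]
      have : 0 ≤ u ^ 2 / N := by positivity
      exact ⟨by norm_num, by linarith⟩
    exact mul_nonneg hN0.le (by linarith)
  have hgN : ∀ u : ℝ, 0 ≤ u → u ≤ 1 → g u ≤ N := by
    intro u h0 h1
    have : 0 ≤ Real.sqrt (1 - u ^ 2 / N) := Real.sqrt_nonneg _
    show N * (1 - Real.sqrt (1 - u ^ 2 / N)) ≤ N
    nlinarith
  have hgle : ∀ u : ℝ, 0 ≤ u → u ≤ 7 / 9 → g u ≤ 1 / 3 := by
    intro u h0 h1
    have h2 := heq u h0 (by linarith)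
    have h3 := hg0 u h0 (by linarith)
    have h4 := hgN u h0 (by linarith)
    have h5 : (g u) ^ 2 / N ≤ g u := by
      rw [div_le_iff₀ hN0]
      nlinarith
    have h6 : g u ≤ 49 / 81 := by nlinarith
    have h7 : (g u) ^ 2 / N ≤ g u * (49 / 81) / 9 := by
      rw [div_le_div_iff₀ hN0 (by norm_num)]
      have h8 : g u * g u ≤ g u * (49 / 81) := mul_le_mul_of_nonneg_left h6 h3
      have h9 : 0 ≤ g u * (49 / 81) := by positivity
      nlinarith
    nlinarith
  have hsl : Slopes g (2 / 3) (2 / 3 + 1 / 9) := by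
    intro u v hu huv hv
    have hv' : v ≤ 7 / 9 := by linarith
    have e1 := heq u (by linarith) (by linarith)
    have e2 := heq v (by linarith) (by linarith)
    have l1 := hgle u (by linarith) (by linarith)
    have l2 := hgle v (by linarith) hv'
    have p1 := hg0 u (by linarith) (by linarith)
    have p2 := hg0 v (by linarith) (by linarith)
    set D : ℝ := 2 - (g u + g v) / N with hD
    have hD1 : D ≤ 2 := by
      have : 0 ≤ (g u + g v) / N := by positivity
      linarith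
    have hD2 : 17 / 9 ≤ D := by
      have : (g u + g v) / N ≤ 1 / 9 := by
        rw [div_le_iff₀ hN0]
        linarith
      linarith
    have hprod : (g v - g u) * D = (v - u) * (v + u) := by
      have : (g v - g u) * D = 2 * g v - g v ^ 2 / N - (2 * g u - g u ^ 2 / N) := by
        rw [hD]
        field_simp
        ring
      rw [this, ← e1, ← e2]
      ring
    have hvu : 0 ≤ v - u := by linarith
    have hpos : 0 ≤ g v - g u := by
      by_contra hcon
      rw [not_le] at hcon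
      have : (g v - g u) * D < 0 := mul_neg_of_neg_of_pos hcon (by linarith)
      rw [hprod] at this
      nlinarith
    constructor
    · by_contra hcon
      rw [not_le] at hcon
      have h1 : (g v - g u) * D ≤ (g v - g u) * 2 := mul_le_mul_of_nonneg_left hD1 hpos
      nlinarith
    · by_contra hcon
      rw [not_le] at hcon
      have h1 : (g v - g u) * (17 / 9) ≤ (g v - g u) * D := mul_le_mul_of_nonneg_left hD2 hpos
      nlinarith
  have hmeet : ∃ u ∈ Icc (2 / 3 : ℝ) (2 / 3 + 1 / 9), g u ∈ Icc (2 / 9 : ℝ) (2 / 9 + 1 / 9) := by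
    refine ⟨2 / 3, ⟨le_refl _, by norm_num⟩, ?_, ?_⟩
    · have h1 := heq (2 / 3) (by norm_num) (by norm_num)
      have h2 : 0 ≤ g (2 / 3) ^ 2 / N := by positivity
      nlinarith
    · have := hgle (2 / 3) (by norm_num) (by norm_num)
      linarith
  obtain ⟨c, d, hc, hd, hcd⟩ := exists_cantor hgc (by norm_num : (0 : ℝ) < 1 / 9) hsl hmeet
  have hc01 := cantorSet_subset_unitInterval hc
  set u : ℝ := 2 / 3 + 1 / 9 * c with hu
  set w : ℝ := 2 / 9 + 1 / 9 * d with hw
  have huC : u ∈ cantorSet := by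
    have := two_third_mem (third_mem hc)
    have e : (2 + c / 3) / 3 = u := by rw [hu]; ring
    rwa [e] at this
  have hwC : w ∈ cantorSet := by
    have := third_mem (two_third_mem hd)
    have e : (2 + d) / 3 / 3 = w := by rw [hw]; ring
    rwa [e] at this
  have hu0 : 2 / 3 ≤ u := by rw [hu]; linarith [hc01.1]
  have hu1 : u ≤ 7 / 9 := by rw [hu]; linarith [hc01.2]
  have hE := heq u (by linarith) (by linarith)
  rw [hcd] at hE
  have h3n : (0 : ℝ) < 3 ^ n := by positivity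
  refine ⟨u / 3 ^ n, 1 - w / 3 ^ (n + n), ?_, div_pow_mem huC n,
    one_sub_mem (div_pow_mem hwC (n + n)), ?_, ?_⟩
  · have hN' : (3 : ℝ) ^ (n + n) = N := by
      rw [hN, ← two_mul, pow_mul]
      norm_num
    have hN'' : ((3 : ℝ) ^ n) ^ 2 = N := by
      rw [← pow_mul, mul_comm, two_mul, hN']
    rw [hN', div_pow, hN'', hE]
    field_simp
    ring
  · gcongr
  · gcongr

/-- **Q1.** The unit circle meets `C × C`, `C` the middle-third Cantor set, in infinitely many
points. -/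
theorem result :
    {p : ℝ × ℝ | p.1 ^ 2 + p.2 ^ 2 = 1 ∧ p.1 ∈ cantorSet ∧ p.2 ∈ cantorSet}.Infinite := by
  choose! x y hxy using exists_point
  refine Set.infinite_of_injective_forall_mem (f := fun n : ℕ => (x (n + 1), y (n + 1))) ?_ ?_
  · have hanti : ∀ n : ℕ, 1 ≤ n → x (n + 1) < x n := by
      intro n hn
      obtain ⟨-, -, -, h1, -⟩ := hxy n hn
      obtain ⟨-, -, -, -, h2⟩ := hxy (n + 1) (by omega)
      refine h2.trans_lt (lt_of_lt_of_le ?_ h1)
      rw [pow_succ, ← div_div, div_lt_iff₀ (by norm_num)]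
      have h3 : (0 : ℝ) < 3 ^ n := by positivity
      rw [div_mul_eq_mul_div]
      gcongr
      norm_num
    have hs : StrictAnti fun n : ℕ => x (n + 1) :=
      strictAnti_nat_of_succ_lt fun n => hanti (n + 1) (by omega)
    intro m n hmn
    exact hs.injective (congrArg Prod.fst hmn)
  · intro n
    obtain ⟨h1, h2, h3, -⟩ := hxy (n + 1) (by omega)
    exact ⟨h1, h2, h3⟩

end Pool.Agent.Results.MP_54f706_an.InfinitelyMany
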